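import Pool.Agent.Helper70.RT.Sheet

/-! # Row PTS (MP_798d7d_nt, rank ten, E7 family): the ten points -/

set_option autoImplicit false

namespace Pool.Helper70.RT

namespace S28

section
variable {R : Type*} [CommRing R]

theorem id_x (U V t : R) (i : Fin 8) :
    yv U V t (xx U V i) ^ 2 = q4 t * (xx U V i) ^ 4 + q3 U V * (xx U V i) ^ 3 +
      q2 U V t * (xx U V i) ^ 2 + q1 U V t * (xx U V i) + q0 U V t := by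
  fin_cases i <;>
    simp only [xx, Matrix.cons_val, Fin.zero_eta, Fin.mk_one, Fin.reduceFinMk, yv, q4, q3, q2, q1,
      q0, e2, e3, g0, h3, h2, h1, h0] <;> ring

theorem id_1 (U V z : R) :
    w1 U V (z - c1 U V) ^ 2 = q4 (z ^ 2) * (z - c1 U V) ^ 4 +
      q3 U V * (z - c1 U V) ^ 3 * s1 U V + q2 U V (z ^ 2) * (z - c1 U V) ^ 2 * s1 U V ^ 2 +
      q1 U V (z ^ 2) * (z - c1 U V) * s1 U V ^ 3 + q0 U V (z ^ 2) * s1 U V ^ 4 := by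
  simp only [w1, c1, s1, q4, q3, q2, q1, q0, e2, e3, g0, h3, h2, h1, h0]
  ring

theorem id_2 (U V z : R) :
    w2 U V (z - c2 U V) ^ 2 = q4 (z ^ 2) * (z - c2 U V) ^ 4 +
      q3 U V * (z - c2 U V) ^ 3 * s2 U V + q2 U V (z ^ 2) * (z - c2 U V) ^ 2 * s2 U V ^ 2 +
      q1 U V (z ^ 2) * (z - c2 U V) * s2 U V ^ 3 + q0 U V (z ^ 2) * s2 U V ^ 4 := by
  simp only [w2, c2, s2, q4, q3, q2, q1, q0, e2, e3, g0, h3, h2, h1, h0]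
  ring

end

theorem castA (U V z A : ℤ) (hA : 48 * A = -(fI U V (z ^ 2))) :
    48 * (A : ℚ) = -(12 * (2 * (z : ℚ)) ^ 2 * ((q0 U V (z ^ 2) : ℤ) : ℚ) -
      3 * ((q3 U V : ℤ) : ℚ) * ((q1 U V (z ^ 2) : ℤ) : ℚ) + ((q2 U V (z ^ 2) : ℤ) : ℚ) ^ 2) := by
  have h := congrArg (Int.cast : ℤ → ℚ) hA
  unfold fI q4 at h
  push_cast at h
  linear_combination h

theorem castB (U V z B : ℤ) (hB : 1728 * B = -(fJ U V (z ^ 2))) :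
    1728 * (B : ℚ) = -(72 * (2 * (z : ℚ)) ^ 2 * ((q2 U V (z ^ 2) : ℤ) : ℚ) *
      ((q0 U V (z ^ 2) : ℤ) : ℚ) +
      9 * ((q3 U V : ℤ) : ℚ) * ((q2 U V (z ^ 2) : ℤ) : ℚ) * ((q1 U V (z ^ 2) : ℤ) : ℚ) -
      27 * (2 * (z : ℚ)) ^ 2 * ((q1 U V (z ^ 2) : ℤ) : ℚ) ^ 2 -
      27 * ((q0 U V (z ^ 2) : ℤ) : ℚ) * ((q3 U V : ℤ) : ℚ) ^ 2 -
      2 * ((q2 U V (z ^ 2) : ℤ) : ℚ) ^ 3) := by
  have h := congrArg (Int.cast : ℤ → ℚ) hB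
  unfold fJ q4 at h
  push_cast at h
  linear_combination h

/-- a finite point -/
theorem pt1 (h1 : ST_PT1) (U V z A B η ζ w : ℤ) (hA : 48 * A = -(fI U V (z ^ 2)))
    (hB : 1728 * B = -(fJ U V (z ^ 2)))
    (hw : w ^ 2 = q4 (z ^ 2) * η ^ 4 + q3 U V * η ^ 3 * ζ + q2 U V (z ^ 2) * η ^ 2 * ζ ^ 2 +
      q1 U V (z ^ 2) * η * ζ ^ 3 + q0 U V (z ^ 2) * ζ ^ 4) (hζ : ζ ≠ 0)
    (x v : ℤ) (hx : x = 3 * xN U V z η ζ w) (hv : v = 6 * ζ) :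
    ∃ y : ℚ, y ^ 2 = ((x : ℚ) / (v : ℚ) ^ 2) ^ 3 + (A : ℚ) * ((x : ℚ) / (v : ℚ) ^ 2) + (B : ℚ) := by
  have hζ' : (ζ : ℚ) ≠ 0 := by exact_mod_cast hζ
  have hw' : (w : ℚ) ^ 2 = (2 * (z : ℚ)) ^ 2 * (η : ℚ) ^ 4 + ((q3 U V : ℤ) : ℚ) * (η : ℚ) ^ 3 * (ζ : ℚ) +
      ((q2 U V (z ^ 2) : ℤ) : ℚ) * (η : ℚ) ^ 2 * (ζ : ℚ) ^ 2 +
      ((q1 U V (z ^ 2) : ℤ) : ℚ) * (η : ℚ) * (ζ : ℚ) ^ 3 +
      ((q0 U V (z ^ 2) : ℤ) : ℚ) * (ζ : ℚ) ^ 4 := by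
    have h := congrArg (Int.cast : ℤ → ℚ) hw
    unfold q4 at h
    push_cast at h
    linear_combination h
  obtain ⟨Y, hY⟩ := h1 (2 * (z : ℚ)) ((q3 U V : ℤ) : ℚ) ((q2 U V (z ^ 2) : ℤ) : ℚ)
    ((q1 U V (z ^ 2) : ℤ) : ℚ) ((q0 U V (z ^ 2) : ℤ) : ℚ) (A : ℚ) (B : ℚ) (η : ℚ) (ζ : ℚ) (w : ℚ)
    (castA U V z A hA) (castB U V z B hB) hw' hζ'
  refine ⟨Y, ?_⟩
  have hq : ((x : ℚ) / (v : ℚ) ^ 2) =
      (6 * (2 * (z : ℚ)) ^ 2 * (η : ℚ) ^ 2 + 3 * ((q3 U V : ℤ) : ℚ) * (η : ℚ) * (ζ : ℚ) +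
        ((q2 U V (z ^ 2) : ℤ) : ℚ) * (ζ : ℚ) ^ 2 + 6 * (w : ℚ) * (2 * (z : ℚ))) /
        (12 * (ζ : ℚ) ^ 2) := by
    rw [hx, hv]
    unfold xN q4
    push_cast
    field_simp
    ring
  rw [hq]
  exact hY

/-- the point at infinity -/
theorem pt2 (h2 : ST_PT2) (U V z A B : ℤ) (hA : 48 * A = -(fI U V (z ^ 2)))
    (hB : 1728 * B = -(fJ U V (z ^ 2))) (hz : z ≠ 0)
    (x v : ℤ) (hx : x = 3 * (3 * q3 U V ^ 2 - 8 * q4 (z ^ 2) * q2 U V (z ^ 2)))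
    (hv : v = 24 * z) :
    ∃ y : ℚ, y ^ 2 = ((x : ℚ) / (v : ℚ) ^ 2) ^ 3 + (A : ℚ) * ((x : ℚ) / (v : ℚ) ^ 2) + (B : ℚ) := by
  have hz' : (z : ℚ) ≠ 0 := by exact_mod_cast hz
  obtain ⟨Y, hY⟩ := h2 (2 * (z : ℚ)) ((q3 U V : ℤ) : ℚ) ((q2 U V (z ^ 2) : ℤ) : ℚ)
    ((q1 U V (z ^ 2) : ℤ) : ℚ) ((q0 U V (z ^ 2) : ℤ) : ℚ) (A : ℚ) (B : ℚ)
    (castA U V z A hA) (castB U V z B hB) (mul_ne_zero two_ne_zero hz')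
  refine ⟨Y, ?_⟩
  have hq : ((x : ℚ) / (v : ℚ) ^ 2) =
      (3 * ((q3 U V : ℤ) : ℚ) ^ 2 - 8 * (2 * (z : ℚ)) ^ 2 * ((q2 U V (z ^ 2) : ℤ) : ℚ)) /
        (48 * (2 * (z : ℚ)) ^ 2) := by
    rw [hx, hv]
    unfold q4
    push_cast
    field_simp
    ring
  rw [hq]
  exact hY

theorem MM11 : (11 : ℤ) ∣ MM := by
  unfold MM
  refine Dvd.dvd.mul_left ?_ _
  exact_mod_cast (Nat.dvd_factorial (by norm_num)
    (by unfold QQ; exact le_trans (by norm_num) (Nat.le_add_left 10000000 _)) :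
    11 ∣ Nat.factorial QQ)

theorem nz (w : Par) (hw : Cong w) : w.2.2 ≠ 0 ∧ s1 w.1 w.2.1 ≠ 0 ∧ s2 w.1 w.2.1 ≠ 0 := by
  obtain ⟨hU, hV, hz⟩ := hw
  have hU' := MM11.trans hU
  have hV' := MM11.trans hV
  have hz' := MM11.trans hz
  unfold s1 s2
  refine ⟨?_, ?_, ?_⟩ <;> omega

end S28

open S28

theorem st_PTS (h1 : ST_PT1) (h2 : ST_PT2) (hR : ST_REL) : ST_PTS := by
  intro w hw j
  obtain ⟨hA, hB, -, -⟩ := hR w hw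
  obtain ⟨hz, hs1, hs2⟩ := nz w hw
  by_cases h7 : (j : ℕ) < 7
  · have hv : pv w j = 6 * 1 := by
      unfold pv
      rw [if_pos h7]
      norm_num
    refine ⟨by rw [hv]; norm_num, ?_⟩
    refine pt1 h1 w.1 w.2.1 w.2.2 (cA w) (cB w) (xx w.1 w.2.1 ⟨j, by omega⟩) 1
      (yv w.1 w.2.1 (w.2.2 ^ 2) (xx w.1 w.2.1 ⟨j, by omega⟩)) hA hB ?_ one_ne_zero (px w j)
      (pv w j) ?_ hv
    · rw [id_x]
      ring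
    · unfold px
      rw [dif_pos h7]
  by_cases h8 : (j : ℕ) = 7
  · have hv : pv w j = 24 * w.2.2 := by
      unfold pv
      rw [if_neg h7, if_pos h8]
    refine ⟨by rw [hv]; exact mul_ne_zero (by norm_num) hz, ?_⟩
    refine pt2 h2 w.1 w.2.1 w.2.2 (cA w) (cB w) hA hB hz (px w j) (pv w j) ?_ hv
    unfold px
    rw [dif_neg h7, if_pos h8]
  by_cases h9 : (j : ℕ) = 8
  · have hv : pv w j = 6 * s1 w.1 w.2.1 := by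
      unfold pv
      rw [if_neg h7, if_neg h8, if_pos h9]
    refine ⟨by rw [hv]; exact mul_ne_zero (by norm_num) hs1, ?_⟩
    refine pt1 h1 w.1 w.2.1 w.2.2 (cA w) (cB w) (w.2.2 - c1 w.1 w.2.1) (s1 w.1 w.2.1)
      (w1 w.1 w.2.1 (w.2.2 - c1 w.1 w.2.1)) hA hB (id_1 _ _ _) hs1 (px w j) (pv w j) ?_ hv
    unfold px
    rw [dif_neg h7, if_neg h8, if_pos h9]
  · have hv : pv w j = 6 * s2 w.1 w.2.1 := by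
      unfold pv
      rw [if_neg h7, if_neg h8, if_neg h9]
    refine ⟨by rw [hv]; exact mul_ne_zero (by norm_num) hs2, ?_⟩
    refine pt1 h1 w.1 w.2.1 w.2.2 (cA w) (cB w) (w.2.2 - c2 w.1 w.2.1) (s2 w.1 w.2.1)
      (w2 w.1 w.2.1 (w.2.2 - c2 w.1 w.2.1)) hA hB (id_2 _ _ _) hs2 (px w j) (pv w j) ?_ hv
    unfold px
    rw [dif_neg h7, if_neg h8, if_neg h9]

end Pool.Helper70.RT
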